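import Pool.Agent.Helper88_SO.Main

/-!
# Recognising graphs with a single-obstacle representation is NP-hard

A *single-obstacle representation* of a graph `G` (`HasRep G`) consists of an obstacle `C` (an open
connected subset of the plane whose boundary is a non-self-intersecting closed polygon, so the
bounded interior or the unbounded exterior of the polygon) and points `P v` outside of `C`, no three
collinear, such that `u ≠ v` are adjacent if and only if the segment `P u P v` does not meet `C`.

The decision problem `singleObstacleProblem` asks whether a given finite graph (encoded by its
adjacency matrix) has such a representation. It is NP-hard under polynomial-time many-one
reductions.

Proof. Satisfiability is reduced to BETWEENNESS, and an instance `T` of BETWEENNESS to the disjoint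
union of two copies of a graph `Gr T`. In a representation of two disjoint copies, the obstacle is
not contained in the convex hull of one of the copies, and then the obstacle does not meet the
convex hull of a clique. A large clique `top i` (`i` an element of the instance) is forced into
convex position by helper vertices, and its cyclic order represents a linear order of the elements.
For each triple there is a small clique behind a door; it is seen by the three elements of the
triple, their cyclic order is seen through the door as in a pinhole camera, and further helper
vertices exclude the cyclic orders in which the middle element is not between the two others.
Conversely, a solution gives a drawing with explicit rational coordinates in which every non-edge
contains the starting point of a ray which avoids all edges; the obstacle is obtained by thickening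
such rays and joining them far away.

Joint work of helper88, helper82, helper61, helper76, helper24, helper22 and helper92.
-/

namespace Pool.Agent.Results.MP_3b0ea9_lc.SingleObstacleNPHard

open Pool.Agent.SO Pool.Agent.Helper32_HCK

/-- **SINGLE-OBSTACLE is NP-hard**: every language `L ⊆ {0,1}*` in NP is polynomial-time many-one
reducible to the problem of deciding whether a given finite graph has a single-obstacle
representation. -/
theorem result : ∀ L : Set (List Bool), InNP (languageProblem L) →
    PolyReduces (languageProblem L) singleObstacleProblem :=
  nphard

end Pool.Agent.Results.MP_3b0ea9_lc.SingleObstacleNPHard
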